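import Pool.Agent.LE.DefsQF

/-!
# Block D1 of AND2B: the Dirichlet form of `|G|²` with an absorption which depends on the site

`G` is the resolvent `(H - i k)⁻¹`, `H` real symmetric, `k x ≥ 0` is the total absorption at `x`. The
only properties which are used are the symmetry of `G` and the Ward identity (`WK`). The form is
`E(f, f) = 1/2 ∑ k_x |G_xy|² k_y (f_x - f_y)²`; it is conservative. If `k = kap + η` with `kap = 0` at the
dead sites one can ground: see `EG`.
-/

set_option autoImplicit false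

open scoped BigOperators ComplexConjugate Matrix

noncomputable section

namespace Pool.Agent.AWD

open Pool.Agent.LE.QF

variable {X : Type} [Fintype X] [DecidableEq X]

/-- `G` is symmetric and `∑_c k_c conj (G_ac) G_cb = Im G_ab` -/
structure WK (G : Matrix X X ℂ) (k : X → ℝ) : Prop where
  hk : ∀ a, 0 ≤ k a
  hs : ∀ a b, G a b = G b a
  hw : ∀ a b, ∑ c, (k c : ℂ) * (conj (G a c) * G c b) = ((G a b).im : ℂ)

/-- the sum of squares `D_x(f) = ∑_y k_y |G_xy|² (f_x - f_y)²` -/
def DD (k : X → ℝ) (G : Matrix X X ℂ) (x : X) (f : X → ℝ) : ℝ :=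
  ∑ y, k y * ‖G x y‖ ^ 2 * (f x - f y) ^ 2

/-- the form matrix, the Laplacian with the conductances `k_x |G_xy|² k_y` -/
def EE (k : X → ℝ) (G : Matrix X X ℂ) : Matrix X X ℝ := Dl fun a b => k a * KK G a b * k b

/-- its derivative in the coordinate `c` of the potential -/
def EC (k : X → ℝ) (G : Matrix X X ℂ) (c : X) : Matrix X X ℝ :=
  Dl fun a b => k a * dK G c a b * k b

/-- `β_xc = ∑_y k_y conj (G_xy) G_yc (f_x - f_y)` -/
def be (k : X → ℝ) (G : Matrix X X ℂ) (f : X → ℝ) (x c : X) : ℂ :=
  ∑ y, (k y : ℂ) * (conj (G x y) * G y c) * ((f x - f y : ℝ) : ℂ)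

end Pool.Agent.AWD
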