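import Pool.Agent.AWD.Nbd

/-!
# Block D1 of AND2B, part 3: the drift of the form (DR)

`b` is the set of the running sites, `ρ_c` the speed of `k_c` (zero outside of `b`), `μ` the fluctuation
of the diagonal (zero outside of `b`), so `L G = G μ G`, `k' = - ρ`. The conductances
`k_x |G_xy|² k_y` then have the drift `CD`.
-/

set_option autoImplicit false

open scoped BigOperators ComplexConjugate Matrix

noncomputable section

namespace Pool.Agent.AWD

open Pool.Agent.LE.QF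

variable {X : Type} [Fintype X] [DecidableEq X]

/-- the drift of the conductances -/
def CD (k ρ : X → ℝ) (G : Matrix X X ℂ) (μ : X → ℂ) (b : Finset X) : Matrix X X ℝ :=
  fun x y => k x * (∑ c ∈ b, KK G x c * KK G c y + EK G μ x y) * k y -
    (ρ x * KK G x y * k y + k x * KK G x y * ρ y)

theorem GD_apply (G : Matrix X X ℂ) (μ : X → ℂ) (x y : X) :
    GD G μ x y = ∑ c, G x c * μ c * G c y := by
  rw [GD, Matrix.mul_apply]
  exact Finset.sum_congr rfl fun c _ => by rw [Matrix.mul_diagonal]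

theorem GD_symm {G : Matrix X X ℂ} (hs : ∀ a b, G a b = G b a) (μ : X → ℂ) (x y : X) :
    GD G μ x y = GD G μ y x := by
  rw [GD_apply, GD_apply]
  exact Finset.sum_congr rfl fun c _ => by rw [hs x c, hs c y]; ring

theorem EK_symm {G : Matrix X X ℂ} (hs : ∀ a b, G a b = G b a) (μ : X → ℂ) (x y : X) :
    EK G μ x y = EK G μ y x := by
  simp only [EK]; rw [hs x y, GD_symm hs μ x y]

theorem CD_symm {G : Matrix X X ℂ} (hs : ∀ a b, G a b = G b a) (k ρ : X → ℝ) (μ : X → ℂ)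
    (b : Finset X) (x y : X) : CD k ρ G μ b x y = CD k ρ G μ b y x := by
  simp only [CD]
  rw [EK_symm hs μ x y, KK_symm hs x y]
  have : ∑ c ∈ b, KK G x c * KK G c y = ∑ c ∈ b, KK G y c * KK G c x :=
    Finset.sum_congr rfl fun c _ => by rw [KK_symm hs x c, KK_symm hs c y]; ring
  rw [this]; ring

/-- the part of the gauge error: `∑_x,y k_x EK_xy k_y (f_x - f_y)² / 2` -/
def eK (k : X → ℝ) (G : Matrix X X ℂ) (μ : X → ℂ) (f : X → ℝ) : ℝ :=
  qf (Dl fun x y => k x * EK G μ x y * k y) f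

theorem qf_Dl (K : Matrix X X ℝ) (hK : ∀ a b, K a b = K b a) (f : X → ℝ) :
    2 * qf (Dl K) f = ∑ a, ∑ b, K a b * (f a - f b) ^ 2 := by
  rw [qf, Dl_form K hK]
  exact Finset.sum_congr rfl fun a _ => Finset.sum_congr rfl fun b _ => by ring

namespace WK

variable {G : Matrix X X ℂ} {k : X → ℝ}

/-- `eK = 2 Re ∑_c μ_c ∑_x k_x (f_x - f_c) G_xc β_xc` -/
theorem eK_eq (h : WK G k) (μ : X → ℂ) (f : X → ℝ) :
    eK k G μ f = 2 * (∑ c, μ c * ∑ x, (k x : ℂ) * (((f x - f c : ℝ) : ℂ) * G x c *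
      be k G f x c)).re := by
  have h1 : 2 * eK k G μ f = ∑ x, ∑ y, (k x * k y * (f x - f y) ^ 2) * EK G μ x y := by
    rw [eK, qf_Dl _ (fun a b => by rw [EK_symm h.hs μ a b]; ring)]
    exact Finset.sum_congr rfl fun a _ => Finset.sum_congr rfl fun b _ => by ring
  -- write everything as the real part of a triple sum
  have h2 : ∑ x, ∑ y, (k x * k y * (f x - f y) ^ 2) * EK G μ x y =
      2 * (∑ x, ∑ y, ∑ c, (k x : ℂ) * (k y : ℂ) * ((f x - f y : ℝ) : ℂ) * ((f x - f y : ℝ) : ℂ) *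
        (conj (G x y) * (G x c * μ c * G c y))).re := by
    rw [Complex.re_sum, Finset.mul_sum]
    refine Finset.sum_congr rfl fun x _ => ?_
    rw [Complex.re_sum, Finset.mul_sum]
    refine Finset.sum_congr rfl fun y _ => ?_
    have : ∑ c, (k x : ℂ) * (k y : ℂ) * ((f x - f y : ℝ) : ℂ) * ((f x - f y : ℝ) : ℂ) *
        (conj (G x y) * (G x c * μ c * G c y)) =
        ((k x * k y * (f x - f y) ^ 2 : ℝ) : ℂ) * (conj (G x y) * GD G μ x y) := by
      rw [GD_apply, Finset.mul_sum, Finset.mul_sum]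
      exact Finset.sum_congr rfl fun c _ => by push_cast; ring
    rw [this, Complex.re_ofReal_mul]
    simp only [EK]; ring
  have h3 : ∑ x, ∑ y, ∑ c, (k x : ℂ) * (k y : ℂ) * ((f x - f y : ℝ) : ℂ) * ((f x - f y : ℝ) : ℂ) *
        (conj (G x y) * (G x c * μ c * G c y)) =
      2 * ∑ c, μ c * ∑ x, (k x : ℂ) * (((f x - f c : ℝ) : ℂ) * G x c * be k G f x c) := by
    have e1 : ∑ c, μ c * ∑ x, (k x : ℂ) * (((f x - f c : ℝ) : ℂ) * G x c * be k G f x c) =
        ∑ x, ∑ y, ∑ c, (k x : ℂ) * (k y : ℂ) * ((f x - f y : ℝ) : ℂ) * ((f x - f c : ℝ) : ℂ) *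
        (conj (G x y) * (G x c * μ c * G c y)) := by
      simp only [be, Finset.mul_sum]
      rw [Finset.sum_comm]
      refine Finset.sum_congr rfl fun x _ => ?_
      rw [Finset.sum_comm]
      refine Finset.sum_congr rfl fun y _ => Finset.sum_congr rfl fun c _ => ?_
      rw [h.hs y c]; ring
    have e2 : ∑ c, μ c * ∑ x, (k x : ℂ) * (((f x - f c : ℝ) : ℂ) * G x c * be k G f x c) =
        ∑ x, ∑ y, ∑ c, (k x : ℂ) * (k y : ℂ) * ((f x - f y : ℝ) : ℂ) * ((f c - f y : ℝ) : ℂ) *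
        (conj (G x y) * (G x c * μ c * G c y)) := by
      rw [e1, Finset.sum_comm]
      refine Finset.sum_congr rfl fun x _ => Finset.sum_congr rfl fun y _ =>
        Finset.sum_congr rfl fun c _ => ?_
      rw [h.hs y x, h.hs y c, h.hs c x]; push_cast; ring
    rw [two_mul]
    nth_rewrite 1 [e1]
    rw [e2, ← Finset.sum_add_distrib]
    refine Finset.sum_congr rfl fun x _ => ?_
    rw [← Finset.sum_add_distrib]
    refine Finset.sum_congr rfl fun y _ => ?_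
    rw [← Finset.sum_add_distrib]
    refine Finset.sum_congr rfl fun c _ => ?_
    push_cast; ring
  rw [h3] at h2
  have h4 : (2 * ∑ c, μ c * ∑ x, (k x : ℂ) * (((f x - f c : ℝ) : ℂ) * G x c * be k G f x c)).re =
      2 * (∑ c, μ c * ∑ x, (k x : ℂ) * (((f x - f c : ℝ) : ℂ) * G x c * be k G f x c)).re := by
    simp
  rw [h4] at h2
  linarith

/-- the gauge error is relatively small -/
theorem eK_le (h : WK G k) (b : Finset X) (μ : X → ℂ) (hμ : ∀ c, c ∉ b → μ c = 0) (f : X → ℝ) :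
    |eK k G μ f| ≤ 4 * ∑ c ∈ b, ‖μ c‖ * DD k G c f := by
  rw [h.eK_eq, abs_mul, abs_two]
  have h1 : ∑ c, μ c * ∑ x, (k x : ℂ) * (((f x - f c : ℝ) : ℂ) * G x c * be k G f x c) =
      ∑ c ∈ b, μ c * ∑ x, (k x : ℂ) * (((f x - f c : ℝ) : ℂ) * G x c * be k G f x c) := by
    symm
    exact Finset.sum_subset (Finset.subset_univ b) fun c _ hc => by rw [hμ c hc, zero_mul]
  rw [h1]
  have h2 : ∀ c, ‖∑ x, (k x : ℂ) * (((f x - f c : ℝ) : ℂ) * G x c * be k G f x c)‖ ≤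
      2 * DD k G c f := fun c => by
    have h3 := cs_w Finset.univ k (fun i _ => h.hk i) (fun x => ((f x - f c : ℝ) : ℂ) * G x c)
      (fun x => be k G f x c)
    have e3 : ∑ x, k x * ‖((f x - f c : ℝ) : ℂ) * G x c‖ ^ 2 = DD k G c f := by
      rw [h.DD_eq]
      refine Finset.sum_congr rfl fun x _ => ?_
      rw [norm_mul, Complex.norm_real, mul_pow, Real.norm_eq_abs, sq_abs]; ring
    rw [e3] at h3
    have hD := h.DD_nonneg c f
    have h4 : ‖∑ x, (k x : ℂ) * (((f x - f c : ℝ) : ℂ) * G x c * be k G f x c)‖ ^ 2 ≤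
        (2 * DD k G c f) ^ 2 := by
      refine h3.trans ?_
      have := mul_le_mul_of_nonneg_left (h.be_x f c) hD
      calc _ ≤ DD k G c f * (4 * DD k G c f) := this
        _ = _ := by ring
    exact le_of_sq_le_sq h4 (by positivity)
  have h3 : |(∑ c ∈ b, μ c * ∑ x, (k x : ℂ) * (((f x - f c : ℝ) : ℂ) * G x c *
      be k G f x c)).re| ≤ ∑ c ∈ b, ‖μ c‖ * (2 * DD k G c f) := by
    refine (Complex.abs_re_le_norm _).trans ((norm_sum_le _ _).trans ?_)
    refine Finset.sum_le_sum fun c _ => ?_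
    rw [norm_mul]
    exact mul_le_mul_of_nonneg_left (h2 c) (norm_nonneg _)
  calc 2 * |(∑ c ∈ b, μ c * ∑ x, (k x : ℂ) * (((f x - f c : ℝ) : ℂ) * G x c *
        be k G f x c)).re| ≤ 2 * ∑ c ∈ b, ‖μ c‖ * (2 * DD k G c f) := by linarith
    _ = 4 * ∑ c ∈ b, ‖μ c‖ * DD k G c f := by
        rw [Finset.mul_sum, Finset.mul_sum]; exact Finset.sum_congr rfl fun c _ => by ring

/-- DR: the exact drift -/
theorem drift (h : WK G k) (b : Finset X) (ρ : X → ℝ) (hρ : ∀ c, c ∉ b → ρ c = 0) (μ : X → ℂ)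
    (f : X → ℝ) :
    qf (Dl (CD k ρ G μ b)) f =
      -∑ c ∈ b, (∑ y, k y * ‖G c y‖ ^ 2 * (f c - f y)) ^ 2 +
        ∑ c ∈ b, ((G c c).im - ρ c) * DD k G c f + eK k G μ f := by
  have h1 := qf_Dl _ (CD_symm h.hs k ρ μ b) f
  have h2 := qf_Dl (fun x y => k x * EK G μ x y * k y)
    (fun a b => by rw [EK_symm h.hs μ a b]; ring) f
  have h3 : ∑ x, ∑ y, k x * (∑ c ∈ b, KK G x c * KK G c y) * k y * (f x - f y) ^ 2 =
      2 * ∑ c ∈ b, (G c c).im * DD k G c f -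
        2 * ∑ c ∈ b, (∑ y, k y * ‖G c y‖ ^ 2 * (f c - f y)) ^ 2 := by
    have e1 : ∑ x, ∑ y, k x * (∑ c ∈ b, KK G x c * KK G c y) * k y * (f x - f y) ^ 2 =
        ∑ c ∈ b, ∑ x, ∑ y, k x * (KK G x c * KK G c y) * k y * (f x - f y) ^ 2 := by
      calc _ = ∑ x, ∑ y, ∑ c ∈ b, k x * (KK G x c * KK G c y) * k y * (f x - f y) ^ 2 :=
            Finset.sum_congr rfl fun x _ => Finset.sum_congr rfl fun y _ => by
              rw [Finset.mul_sum, Finset.sum_mul, Finset.sum_mul]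
        _ = ∑ x, ∑ c ∈ b, ∑ y, k x * (KK G x c * KK G c y) * k y * (f x - f y) ^ 2 :=
            Finset.sum_congr rfl fun x _ => Finset.sum_comm
        _ = _ := Finset.sum_comm
    rw [e1, Finset.mul_sum, Finset.mul_sum, ← Finset.sum_sub_distrib]
    refine Finset.sum_congr rfl fun c _ => ?_
    have e2 : ∀ x y, k x * (KK G x c * KK G c y) * k y * (f x - f y) ^ 2 =
        (k x * ‖G c x‖ ^ 2 * (f c - f x) ^ 2) * (k y * ‖G c y‖ ^ 2) +
        (k x * ‖G c x‖ ^ 2) * (k y * ‖G c y‖ ^ 2 * (f c - f y) ^ 2) -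
        2 * ((k x * ‖G c x‖ ^ 2 * (f c - f x)) * (k y * ‖G c y‖ ^ 2 * (f c - f y))) := fun x y => by
      rw [KK_apply, KK_apply, h.hs x c]; ring
    simp only [e2, Finset.sum_add_distrib, Finset.sum_sub_distrib, ← Finset.mul_sum,
      ← Finset.sum_mul]
    rw [h.row c]
    simp only [DD]; ring
  have h4 : ∑ x, ∑ y, (ρ x * KK G x y * k y + k x * KK G x y * ρ y) * (f x - f y) ^ 2 =
      2 * ∑ c ∈ b, ρ c * DD k G c f := by
    have e0 : ∑ c, ρ c * DD k G c f = ∑ c ∈ b, ρ c * DD k G c f := by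
      symm
      exact Finset.sum_subset (Finset.subset_univ b) fun c _ hc => by rw [hρ c hc, zero_mul]
    have e1 : ∑ x, ∑ y, ρ x * KK G x y * k y * (f x - f y) ^ 2 = ∑ c, ρ c * DD k G c f := by
      refine Finset.sum_congr rfl fun x _ => ?_
      rw [DD, Finset.mul_sum]
      exact Finset.sum_congr rfl fun y _ => by rw [KK_apply]; ring
    have e2 : ∑ x, ∑ y, k x * KK G x y * ρ y * (f x - f y) ^ 2 = ∑ c, ρ c * DD k G c f := by
      rw [Finset.sum_comm, ← e1]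
      exact Finset.sum_congr rfl fun x _ => Finset.sum_congr rfl fun y _ => by
        rw [KK_symm h.hs y x]; ring
    simp only [add_mul, Finset.sum_add_distrib]
    rw [e1, e2, e0]; ring
  have h5 : ∑ x, ∑ y, CD k ρ G μ b x y * (f x - f y) ^ 2 =
      ∑ x, ∑ y, k x * (∑ c ∈ b, KK G x c * KK G c y) * k y * (f x - f y) ^ 2 +
      ∑ x, ∑ y, k x * EK G μ x y * k y * (f x - f y) ^ 2 -
      ∑ x, ∑ y, (ρ x * KK G x y * k y + k x * KK G x y * ρ y) * (f x - f y) ^ 2 := by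
    rw [← Finset.sum_add_distrib, ← Finset.sum_sub_distrib]
    refine Finset.sum_congr rfl fun x _ => ?_
    rw [← Finset.sum_add_distrib, ← Finset.sum_sub_distrib]
    refine Finset.sum_congr rfl fun y _ => ?_
    simp only [CD]; ring
  rw [h5, h3, h4, ← h2] at h1
  have h6 : ∑ c ∈ b, ((G c c).im - ρ c) * DD k G c f =
      ∑ c ∈ b, (G c c).im * DD k G c f - ∑ c ∈ b, ρ c * DD k G c f := by
    rw [← Finset.sum_sub_distrib]; exact Finset.sum_congr rfl fun c _ => by ring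
  rw [h6]
  simp only [eK]
  linarith

/-- DR with the error: the drift of the form is `- E k^(-2) E` on the running sites up to
`5 ∑ |μ_c| D_c` -/
theorem drift_err (h : WK G k) (b : Finset X) (ρ : X → ℝ) (hρ : ∀ c, c ∉ b → ρ c = 0)
    (μ : X → ℂ) (hμ : ∀ c, c ∉ b → μ c = 0) (hμ' : ∀ c ∈ b, (μ c).im = (G c c).im - ρ c)
    (f : X → ℝ) :
    |qf (Dl (CD k ρ G μ b)) f + ∑ c ∈ b, (∑ y, k y * ‖G c y‖ ^ 2 * (f c - f y)) ^ 2| ≤
      5 * ∑ c ∈ b, ‖μ c‖ * DD k G c f := by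
  rw [h.drift b ρ hρ μ f]
  have h1 := h.eK_le b μ hμ f
  have h2 : |∑ c ∈ b, ((G c c).im - ρ c) * DD k G c f| ≤ ∑ c ∈ b, ‖μ c‖ * DD k G c f := by
    refine (Finset.abs_sum_le_sum_abs _ _).trans (Finset.sum_le_sum fun c hc => ?_)
    rw [abs_mul, abs_of_nonneg (h.DD_nonneg c f), ← hμ' c hc]
    exact mul_le_mul_of_nonneg_right (Complex.abs_im_le_norm _) (h.DD_nonneg c f)
  set A := ∑ c ∈ b, (∑ y, k y * ‖G c y‖ ^ 2 * (f c - f y)) ^ 2
  set B := ∑ c ∈ b, ((G c c).im - ρ c) * DD k G c f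
  set C := ∑ c ∈ b, ‖μ c‖ * DD k G c f
  have h3 : -A + B + eK k G μ f + A = B + eK k G μ f := by ring
  rw [h3]
  have := abs_add_le B (eK k G μ f)
  linarith

/-- the same with the supremum of the fluctuation -/
theorem drift_sup (h : WK G k) (b : Finset X) (ρ : X → ℝ) (hρ : ∀ c, c ∉ b → ρ c = 0)
    (μ : X → ℂ) (hμ : ∀ c, c ∉ b → μ c = 0) (hμ' : ∀ c ∈ b, (μ c).im = (G c c).im - ρ c)
    (κ δ : ℝ) (hκ : 0 < κ) (hb : ∀ c ∈ b, κ ≤ k c) (hδ : 0 ≤ δ) (hμδ : ∀ c ∈ b, ‖μ c‖ ≤ δ)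
    (f : X → ℝ) :
    |qf (Dl (CD k ρ G μ b)) f + ∑ c ∈ b, ((EE k G *ᵥ f) c / k c) ^ 2| ≤
      10 * δ / κ * qf (EE k G) f := by
  have h1 := h.drift_err b ρ hρ μ hμ hμ' f
  have h2 : ∀ c ∈ b, ((EE k G *ᵥ f) c / k c) ^ 2 = (∑ y, k y * ‖G c y‖ ^ 2 * (f c - f y)) ^ 2 :=
    fun c hc => by
      rw [EE_apply, mul_div_cancel_left₀ _ (hκ.trans_le (hb c hc)).ne']
  rw [Finset.sum_congr rfl h2]
  refine h1.trans ?_
  have h3 : ∑ c ∈ b, ‖μ c‖ * DD k G c f ≤ δ * ∑ c ∈ b, DD k G c f := by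
    rw [Finset.mul_sum]
    exact Finset.sum_le_sum fun c hc => mul_le_mul_of_nonneg_right (hμδ c hc) (h.DD_nonneg c f)
  have h4 := mul_le_mul_of_nonneg_left (h.sum_DD b κ hκ hb f) hδ
  calc 5 * ∑ c ∈ b, ‖μ c‖ * DD k G c f ≤ 5 * (δ * (2 / κ * qf (EE k G) f)) := by linarith
    _ = _ := by ring

end WK

end Pool.Agent.AWD
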