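import Pool.Agent.AWD.War

/-!
# Block D1 of AND2B, part 2: the form, its derivative in one coordinate of the potential (NB)
-/

set_option autoImplicit false

open scoped BigOperators ComplexConjugate Matrix

noncomputable section

namespace Pool.Agent.AWD

open Pool.Agent.LE.QF

variable {X : Type} [Fintype X] [DecidableEq X]

/-! ### Laplacians -/

theorem Dl_apply (K : Matrix X X ℝ) (f : X → ℝ) (a : X) :
    (Dl K *ᵥ f) a = ∑ b, K a b * (f a - f b) := by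
  rw [Dl, Matrix.sub_mulVec]
  simp only [Pi.sub_apply, Matrix.mulVec_diagonal]
  simp only [Matrix.mulVec, dotProduct, Finset.sum_mul, ← Finset.sum_sub_distrib]
  exact Finset.sum_congr rfl fun b _ => by ring

/-- the bilinear form of a Laplacian -/
theorem Dl_form (K : Matrix X X ℝ) (hK : ∀ a b, K a b = K b a) (f h : X → ℝ) :
    2 * ∑ a, h a * (Dl K *ᵥ f) a = ∑ a, ∑ b, K a b * ((f a - f b) * (h a - h b)) := by
  have h1 : ∑ a, h a * (Dl K *ᵥ f) a = ∑ a, ∑ b, K a b * ((f a - f b) * h a) :=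
    Finset.sum_congr rfl fun a _ => by
      rw [Dl_apply, Finset.mul_sum]; exact Finset.sum_congr rfl fun b _ => by ring
  have h2 : ∑ a, h a * (Dl K *ᵥ f) a = ∑ a, ∑ b, K a b * ((f b - f a) * h b) := by
    rw [h1, Finset.sum_comm]
    exact Finset.sum_congr rfl fun a _ => Finset.sum_congr rfl fun b _ => by rw [hK b a]
  rw [two_mul]
  nth_rewrite 1 [h1]
  rw [h2, ← Finset.sum_add_distrib]
  refine Finset.sum_congr rfl fun a _ => ?_
  rw [← Finset.sum_add_distrib]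
  exact Finset.sum_congr rfl fun b _ => by ring

theorem Dl_sum (K : Matrix X X ℝ) (hK : ∀ a b, K a b = K b a) (f : X → ℝ) :
    ∑ a, (Dl K *ᵥ f) a = 0 := by
  have := Dl_form K hK f fun _ => 1
  simp at this; exact this

theorem Dl_symm (K : Matrix X X ℝ) (hK : ∀ a b, K a b = K b a) (a b : X) : Dl K a b = Dl K b a := by
  simp only [Dl, Matrix.sub_apply, Matrix.diagonal_apply, hK a b]
  by_cases hab : a = b
  · subst hab; rfl
  · rw [if_neg hab, if_neg (Ne.symm hab)]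

theorem KK_symm {G : Matrix X X ℂ} (hs : ∀ a b, G a b = G b a) (a b : X) : KK G a b = KK G b a := by
  rw [KK_apply, KK_apply, hs]

theorem dK_symm {G : Matrix X X ℂ} (hs : ∀ a b, G a b = G b a) (c a b : X) :
    dK G c a b = dK G c b a := by
  simp only [dK]
  rw [hs a b, hs a c, hs c b]
  congr 3; ring

namespace WK

variable {G : Matrix X X ℂ} {k : X → ℝ}

theorem DD_nonneg (h : WK G k) (x : X) (f : X → ℝ) : 0 ≤ DD k G x f :=
  Finset.sum_nonneg fun y _ => mul_nonneg (mul_nonneg (h.hk y) (sq_nonneg _)) (sq_nonneg _)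

/-- `D_x(f) = ∑_y k_y |G_yx|² (f_y - f_x)²` -/
theorem DD_eq (h : WK G k) (x : X) (f : X → ℝ) :
    DD k G x f = ∑ y, k y * ‖G y x‖ ^ 2 * (f y - f x) ^ 2 :=
  Finset.sum_congr rfl fun y _ => by rw [h.hs x y]; ring

/-! ### the form -/

theorem EEsymm (h : WK G k) (a b : X) : EE k G a b = EE k G b a :=
  Dl_symm _ (fun a b => by rw [KK_symm h.hs a b]; ring) a b

theorem EE_apply (k : X → ℝ) (G : Matrix X X ℂ) (f : X → ℝ) (a : X) :
    (EE k G *ᵥ f) a = k a * ∑ b, k b * ‖G a b‖ ^ 2 * (f a - f b) := by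
  rw [EE, Dl_apply, Finset.mul_sum]
  exact Finset.sum_congr rfl fun b _ => by rw [KK_apply]; ring

/-- `2 E(f, f) = ∑ k_x D_x(f)` -/
theorem two_qf (h : WK G k) (f : X → ℝ) : 2 * qf (EE k G) f = ∑ x, k x * DD k G x f := by
  have h1 := Dl_form (fun a b => k a * KK G a b * k b)
    (fun a b => by rw [KK_symm h.hs a b]; ring) f f
  rw [qf, EE, h1]
  refine Finset.sum_congr rfl fun x _ => ?_
  rw [DD, Finset.mul_sum]
  exact Finset.sum_congr rfl fun y _ => by rw [KK_apply]; ring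

theorem qf_nonneg (h : WK G k) (f : X → ℝ) : 0 ≤ qf (EE k G) f := by
  have h1 := h.two_qf f
  have : 0 ≤ ∑ x, k x * DD k G x f :=
    Finset.sum_nonneg fun x _ => mul_nonneg (h.hk x) (h.DD_nonneg x f)
  linarith

theorem EE_one (h : WK G k) (a : X) (t : ℝ) : (EE k G *ᵥ fun _ => t) a = 0 := by
  rw [EE_apply]; simp

/-- `E(f, f) ≤ 2 ∑ k_x g_x f_x²` -/
theorem qf_le (h : WK G k) (f : X → ℝ) :
    qf (EE k G) f ≤ 2 * ∑ x, k x * (G x x).im * f x ^ 2 := by
  have h1 := h.two_qf f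
  have h2 : ∑ x, k x * DD k G x f ≤ ∑ x, ∑ y, k x * (k y * ‖G x y‖ ^ 2) * (2 * f x ^ 2 + 2 * f y ^ 2) := by
    refine Finset.sum_le_sum fun x _ => ?_
    rw [DD, Finset.mul_sum]
    refine Finset.sum_le_sum fun y _ => ?_
    have : (f x - f y) ^ 2 ≤ 2 * f x ^ 2 + 2 * f y ^ 2 := by nlinarith [sq_nonneg (f x + f y)]
    calc k x * (k y * ‖G x y‖ ^ 2 * (f x - f y) ^ 2) = k x * (k y * ‖G x y‖ ^ 2) * (f x - f y) ^ 2 := by
          ring
      _ ≤ _ := mul_le_mul_of_nonneg_left this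
          (mul_nonneg (h.hk x) (mul_nonneg (h.hk y) (sq_nonneg _)))
  have h3 : ∑ x, ∑ y, k x * (k y * ‖G x y‖ ^ 2) * (2 * f x ^ 2) =
      2 * ∑ x, k x * (G x x).im * f x ^ 2 := by
    rw [Finset.mul_sum]
    refine Finset.sum_congr rfl fun x _ => ?_
    rw [← h.row x, Finset.mul_sum, Finset.sum_mul, Finset.mul_sum]
    exact Finset.sum_congr rfl fun y _ => by ring
  have h4 : ∑ x, ∑ y, k x * (k y * ‖G x y‖ ^ 2) * (2 * f y ^ 2) =
      2 * ∑ x, k x * (G x x).im * f x ^ 2 := by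
    rw [Finset.sum_comm, ← h3]
    exact Finset.sum_congr rfl fun x _ => Finset.sum_congr rfl fun y _ => by rw [h.hs y x]; ring
  have h5 : ∑ x, ∑ y, k x * (k y * ‖G x y‖ ^ 2) * (2 * f x ^ 2 + 2 * f y ^ 2) =
      4 * ∑ x, k x * (G x x).im * f x ^ 2 := by
    simp only [mul_add, Finset.sum_add_distrib]
    rw [h3, h4]; ring
  linarith

/-- the running sites -/
theorem sum_DD (h : WK G k) (b : Finset X) (κ : ℝ) (hκ : 0 < κ) (hb : ∀ c ∈ b, κ ≤ k c)
    (f : X → ℝ) : ∑ c ∈ b, DD k G c f ≤ 2 / κ * qf (EE k G) f := by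
  have h1 : κ * ∑ c ∈ b, DD k G c f ≤ ∑ c ∈ b, k c * DD k G c f := by
    rw [Finset.mul_sum]
    exact Finset.sum_le_sum fun c hc => mul_le_mul_of_nonneg_right (hb c hc) (h.DD_nonneg c f)
  have h2 : ∑ c ∈ b, k c * DD k G c f ≤ ∑ c, k c * DD k G c f :=
    Finset.sum_le_sum_of_subset_of_nonneg (Finset.subset_univ b)
      fun c _ _ => mul_nonneg (h.hk c) (h.DD_nonneg c f)
  rw [← h.two_qf] at h2
  have h3 : κ * ∑ c ∈ b, DD k G c f ≤ 2 * qf (EE k G) f := h1.trans h2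
  rw [div_mul_eq_mul_div, le_div_iff₀ hκ]; linarith

/-! ### `β` -/

/-- the sum over the sources -/
theorem be_c (h : WK G k) (f : X → ℝ) (x : X) :
    ∑ c, k c * ‖be k G f x c‖ ^ 2 ≤ DD k G x f := by
  have h1 := h.nrm fun y => conj (G x y) * ((f x - f y : ℝ) : ℂ)
  refine le_trans (le_of_eq (Finset.sum_congr rfl fun c _ => ?_)) (h1.trans (le_of_eq ?_))
  · rw [be]
    congr 3
    exact Finset.sum_congr rfl fun y _ => by rw [h.hs y c]; ring
  · refine Finset.sum_congr rfl fun y _ => ?_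
    rw [norm_mul, RCLike.norm_conj, Complex.norm_real, mul_pow, Real.norm_eq_abs, sq_abs]; ring

/-- the supremum -/
theorem be_sup (h : WK G k) (f : X → ℝ) (x c : X) :
    ‖be k G f x c‖ ^ 2 ≤ (G c c).im * DD k G x f := by
  have h1 := cs_w Finset.univ k (fun i _ => h.hk i)
    (fun y => conj (G x y) * ((f x - f y : ℝ) : ℂ)) (fun y => G y c)
  have e1 : be k G f x c =
      ∑ y, (k y : ℂ) * (conj (G x y) * ((f x - f y : ℝ) : ℂ) * G y c) :=
    Finset.sum_congr rfl fun y _ => by ring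
  rw [← e1, h.row'] at h1
  have e2 : ∑ y, k y * ‖conj (G x y) * ((f x - f y : ℝ) : ℂ)‖ ^ 2 = DD k G x f := by
    refine Finset.sum_congr rfl fun y _ => ?_
    rw [norm_mul, RCLike.norm_conj, Complex.norm_real, mul_pow, Real.norm_eq_abs, sq_abs]; ring
  rw [e2] at h1
  linarith

/-- the sum over the targets -/
theorem be_x (h : WK G k) (f : X → ℝ) (c : X) :
    ∑ x, k x * ‖be k G f x c‖ ^ 2 ≤ 4 * DD k G c f := by
  have e1 : ∀ x, be k G f x c = ((f x - f c : ℝ) : ℂ) * ((G x c).im : ℂ) -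
      ∑ y, conj (G x y) * ((k y : ℂ) * (G y c * ((f y - f c : ℝ) : ℂ))) := fun x => by
    rw [be, ← h.hw x c, Finset.mul_sum, ← Finset.sum_sub_distrib]
    exact Finset.sum_congr rfl fun y _ => by push_cast; ring
  have h1 := h.nrm' fun y => G y c * ((f y - f c : ℝ) : ℂ)
  have e2 : ∑ y, k y * ‖G y c * ((f y - f c : ℝ) : ℂ)‖ ^ 2 = DD k G c f := by
    rw [h.DD_eq]
    refine Finset.sum_congr rfl fun y _ => ?_
    rw [norm_mul, Complex.norm_real, mul_pow, Real.norm_eq_abs, sq_abs]; ring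
  rw [e2] at h1
  have h2 : ∑ x, k x * ‖((f x - f c : ℝ) : ℂ) * ((G x c).im : ℂ)‖ ^ 2 ≤ DD k G c f := by
    rw [h.DD_eq]
    refine Finset.sum_le_sum fun x _ => ?_
    rw [norm_mul, Complex.norm_real, Complex.norm_real, mul_pow, Real.norm_eq_abs, sq_abs,
      Real.norm_eq_abs, sq_abs]
    have h3 : (G x c).im ^ 2 ≤ ‖G x c‖ ^ 2 := by
      rw [← sq_abs (G x c).im]
      exact pow_le_pow_left₀ (abs_nonneg _) (Complex.abs_im_le_norm _) 2
    calc k x * ((f x - f c) ^ 2 * (G x c).im ^ 2) = (k x * (f x - f c) ^ 2) * (G x c).im ^ 2 := by ring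
      _ ≤ (k x * (f x - f c) ^ 2) * ‖G x c‖ ^ 2 :=
          mul_le_mul_of_nonneg_left h3 (mul_nonneg (h.hk x) (sq_nonneg _))
      _ = _ := by ring
  have h3 : ∀ x, k x * ‖be k G f x c‖ ^ 2 ≤
      2 * (k x * ‖((f x - f c : ℝ) : ℂ) * ((G x c).im : ℂ)‖ ^ 2) +
      2 * (k x * ‖∑ y, conj (G x y) * ((k y : ℂ) * (G y c * ((f y - f c : ℝ) : ℂ)))‖ ^ 2) :=
    fun x => by
      rw [e1 x]
      set A := ((f x - f c : ℝ) : ℂ) * ((G x c).im : ℂ)
      set B := ∑ y, conj (G x y) * ((k y : ℂ) * (G y c * ((f y - f c : ℝ) : ℂ)))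
      have : ‖A - B‖ ^ 2 ≤ 2 * ‖A‖ ^ 2 + 2 * ‖B‖ ^ 2 := by
        have h4 := norm_sub_le A B
        have h5 : ‖A - B‖ ^ 2 ≤ (‖A‖ + ‖B‖) ^ 2 := pow_le_pow_left₀ (norm_nonneg _) h4 2
        nlinarith [sq_nonneg (‖A‖ - ‖B‖)]
      nlinarith [mul_le_mul_of_nonneg_left this (h.hk x)]
  refine (Finset.sum_le_sum fun x _ => h3 x).trans ?_
  rw [Finset.sum_add_distrib, ← Finset.mul_sum, ← Finset.mul_sum]
  linarith

/-! ### the derivative -/

theorem EC_apply (h : WK G k) (c : X) (f : X → ℝ) (x : X) :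
    (EC k G c *ᵥ f) x = -(2 * k x * (G x c * be k G f x c).re) := by
  rw [EC, Dl_apply, be, Finset.mul_sum, Complex.re_sum, Finset.mul_sum, ← Finset.sum_neg_distrib]
  refine Finset.sum_congr rfl fun y _ => ?_
  have e1 : G x c * ((k y : ℂ) * (conj (G x y) * G y c) * ((f x - f y : ℝ) : ℂ)) =
      ((k y * (f x - f y) : ℝ) : ℂ) * (conj (G x y) * G x c * G c y) := by
    rw [h.hs c y]; push_cast; ring
  rw [e1, Complex.re_ofReal_mul]
  simp only [dK]; ring

theorem EC_sum (h : WK G k) (c : X) (f : X → ℝ) : ∑ x, (EC k G c *ᵥ f) x = 0 :=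
  Dl_sum _ (fun a b => by rw [dK_symm h.hs c a b]; ring) f

theorem EC_symm (h : WK G k) (c a b : X) : EC k G c a b = EC k G c b a :=
  Dl_symm _ (fun a b => by rw [dK_symm h.hs c a b]; ring) a b

/-- NB, the white part, at the site `x` -/
theorem white (h : WK G k) (b : Finset X) (κ γ : ℝ) (hκ : 0 < κ) (hb : ∀ c ∈ b, κ ≤ k c)
    (hγ : ∀ c ∈ b, (G c c).im ≤ γ) (f : X → ℝ) (x : X) :
    ∑ c ∈ b, (EC k G c *ᵥ f) x ^ 2 ≤
      4 * k x ^ 2 * Real.sqrt (∑ c ∈ b, (‖G x c‖ ^ 2) ^ 2) * Real.sqrt (γ / κ) * DD k G x f := by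
  rcases b.eq_empty_or_nonempty with hbe | ⟨c₀, hc₀⟩
  · subst hbe; simp
  have hg : 0 ≤ γ := (h.im_nonneg c₀).trans (hγ c₀ hc₀)
  have hD := h.DD_nonneg x f
  have h1 : ∀ c ∈ b, (EC k G c *ᵥ f) x ^ 2 ≤
      4 * k x ^ 2 * (‖G x c‖ ^ 2 * ‖be k G f x c‖ ^ 2) := fun c _ => by
    rw [h.EC_apply]
    have : |(G x c * be k G f x c).re| ≤ ‖G x c‖ * ‖be k G f x c‖ := by
      rw [← norm_mul]; exact Complex.abs_re_le_norm _
    have h2 : (G x c * be k G f x c).re ^ 2 ≤ (‖G x c‖ * ‖be k G f x c‖) ^ 2 := by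
      rw [← sq_abs (G x c * be k G f x c).re]; exact pow_le_pow_left₀ (abs_nonneg _) this 2
    calc (-(2 * k x * (G x c * be k G f x c).re)) ^ 2 =
        4 * k x ^ 2 * (G x c * be k G f x c).re ^ 2 := by ring
      _ ≤ 4 * k x ^ 2 * (‖G x c‖ * ‖be k G f x c‖) ^ 2 :=
          mul_le_mul_of_nonneg_left h2 (by positivity)
      _ = _ := by ring
  have h2 : ∑ c ∈ b, (‖be k G f x c‖ ^ 2) ^ 2 ≤ γ / κ * DD k G x f ^ 2 := by
    have h3 : ∀ c ∈ b, (‖be k G f x c‖ ^ 2) ^ 2 ≤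
        γ * DD k G x f / κ * (k c * ‖be k G f x c‖ ^ 2) := fun c hc => by
      have h4 := (h.be_sup f x c).trans (mul_le_mul_of_nonneg_right (hγ c hc) hD)
      have h5 : ‖be k G f x c‖ ^ 2 ≤ k c / κ * ‖be k G f x c‖ ^ 2 := by
        have : 1 ≤ k c / κ := (one_le_div hκ).mpr (hb c hc)
        nlinarith [sq_nonneg ‖be k G f x c‖]
      calc (‖be k G f x c‖ ^ 2) ^ 2 = ‖be k G f x c‖ ^ 2 * ‖be k G f x c‖ ^ 2 := by ring
        _ ≤ (γ * DD k G x f) * (k c / κ * ‖be k G f x c‖ ^ 2) :=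
            mul_le_mul h4 h5 (sq_nonneg _) ((sq_nonneg _).trans h4)
        _ = _ := by ring
    refine (Finset.sum_le_sum h3).trans ?_
    rw [← Finset.mul_sum]
    have h6 : ∑ c ∈ b, k c * ‖be k G f x c‖ ^ 2 ≤ DD k G x f :=
      (Finset.sum_le_sum_of_subset_of_nonneg (Finset.subset_univ b)
        fun c _ _ => mul_nonneg (h.hk c) (sq_nonneg _)).trans (h.be_c f x)
    calc γ * DD k G x f / κ * ∑ c ∈ b, k c * ‖be k G f x c‖ ^ 2 ≤
        γ * DD k G x f / κ * DD k G x f := mul_le_mul_of_nonneg_left h6 (by positivity)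
      _ = _ := by ring
  have h3 := Finset.sum_mul_sq_le_sq_mul_sq b (fun c => ‖G x c‖ ^ 2) (fun c => ‖be k G f x c‖ ^ 2)
  have h4 : ∑ c ∈ b, ‖G x c‖ ^ 2 * ‖be k G f x c‖ ^ 2 ≤
      Real.sqrt (∑ c ∈ b, (‖G x c‖ ^ 2) ^ 2) * (Real.sqrt (γ / κ) * DD k G x f) := by
    have h5 : Real.sqrt (γ / κ * DD k G x f ^ 2) = Real.sqrt (γ / κ) * DD k G x f := by
      rw [Real.sqrt_mul' _ (sq_nonneg _), Real.sqrt_sq hD]
    rw [← h5, ← Real.sqrt_mul (Finset.sum_nonneg fun c _ => sq_nonneg _)]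
    refine Real.le_sqrt_of_sq_le (h3.trans ?_)
    exact mul_le_mul_of_nonneg_left h2 (Finset.sum_nonneg fun c _ => sq_nonneg _)
  refine (Finset.sum_le_sum h1).trans ?_
  rw [← Finset.mul_sum]
  calc 4 * k x ^ 2 * ∑ c ∈ b, ‖G x c‖ ^ 2 * ‖be k G f x c‖ ^ 2 ≤
      4 * k x ^ 2 * (Real.sqrt (∑ c ∈ b, (‖G x c‖ ^ 2) ^ 2) * (Real.sqrt (γ / κ) * DD k G x f)) :=
        mul_le_mul_of_nonneg_left h4 (by positivity)
    _ = _ := by ring

/-- NB, the smooth part -/
theorem smooth (h : WK G k) (c : X) (f u : X → ℝ) :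
    (∑ x, u x * (EC k G c *ᵥ f) x) ^ 2 ≤ 16 * (DD k G c f * DD k G c u) := by
  have e1 : ∑ x, u x * (EC k G c *ᵥ f) x = ∑ x, (u x - u c) * (EC k G c *ᵥ f) x := by
    simp only [sub_mul, Finset.sum_sub_distrib]
    rw [← Finset.mul_sum, h.EC_sum, mul_zero, sub_zero]
  rw [e1]
  have h1 : |∑ x, (u x - u c) * (EC k G c *ᵥ f) x| ≤
      2 * ∑ x, k x * (‖G x c‖ * |u x - u c| * ‖be k G f x c‖) := by
    rw [Finset.mul_sum]
    refine (Finset.abs_sum_le_sum_abs _ _).trans (Finset.sum_le_sum fun x _ => ?_)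
    rw [h.EC_apply, abs_mul, abs_neg, abs_mul, abs_mul, abs_of_nonneg (h.hk x), abs_two]
    have : |(G x c * be k G f x c).re| ≤ ‖G x c‖ * ‖be k G f x c‖ := by
      rw [← norm_mul]; exact Complex.abs_re_le_norm _
    calc |u x - u c| * (2 * k x * |(G x c * be k G f x c).re|) ≤
        |u x - u c| * (2 * k x * (‖G x c‖ * ‖be k G f x c‖)) := by
          refine mul_le_mul_of_nonneg_left (mul_le_mul_of_nonneg_left this ?_) (abs_nonneg _)
          exact mul_nonneg zero_le_two (h.hk x)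
      _ = _ := by ring
  have h2 := cs_r Finset.univ k (fun i _ => h.hk i) (fun x => ‖G x c‖ * |u x - u c|)
    (fun x => ‖be k G f x c‖)
  have e2 : ∑ x, k x * (‖G x c‖ * |u x - u c|) ^ 2 = DD k G c u := by
    rw [h.DD_eq]
    exact Finset.sum_congr rfl fun x _ => by rw [mul_pow, sq_abs]; ring
  rw [e2] at h2
  have h3 := h.be_x f c
  have hD := h.DD_nonneg c u
  calc (∑ x, (u x - u c) * (EC k G c *ᵥ f) x) ^ 2 =
      |∑ x, (u x - u c) * (EC k G c *ᵥ f) x| ^ 2 := (sq_abs _).symm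
    _ ≤ (2 * ∑ x, k x * (‖G x c‖ * |u x - u c| * ‖be k G f x c‖)) ^ 2 :=
        pow_le_pow_left₀ (abs_nonneg _) h1 2
    _ = 4 * (∑ x, k x * (‖G x c‖ * |u x - u c| * ‖be k G f x c‖)) ^ 2 := by ring
    _ ≤ 4 * (DD k G c u * ∑ x, k x * ‖be k G f x c‖ ^ 2) := by linarith
    _ ≤ 4 * (DD k G c u * (4 * DD k G c f)) := by
        have := mul_le_mul_of_nonneg_left h3 hD; linarith
    _ = _ := by ring

/-- NB, the smooth part, for a positive semidefinite `S` -/
theorem smoothS (h : WK G k) (c : X) (f : X → ℝ) (S : Matrix X X ℝ)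
    (hS : ∀ a b, S a b = S b a) (hS0 : ∀ u, 0 ≤ qf S u) :
    qf S (EC k G c *ᵥ f) ≤
      32 * DD k G c f * (∑ x, k x * ‖G c x‖ ^ 2 * S x x + (G c c).im * S c c) := by
  set u := EC k G c *ᵥ f with hu
  set v := S *ᵥ u with hv
  set q := qf S u with hq
  have hq0 : 0 ≤ q := hS0 u
  -- `v_x² ≤ S_xx q`
  have hv2 : ∀ x, v x ^ 2 ≤ S x x * q := fun x => by
    have key : ∀ t : ℝ, 0 ≤ S x x * (t * t) + (2 * v x) * t + q := fun t => by
      have h1 := hS0 (u + t • Pi.single x 1)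
      have e1 : qf S (u + t • Pi.single x 1) = S x x * (t * t) + (2 * v x) * t + q := by
        have e2 : S *ᵥ (u + t • Pi.single x 1) = v + t • fun a => S a x := by
          rw [Matrix.mulVec_add, Matrix.mulVec_smul]
          congr 2
          ext a; simp
        simp only [qf, e2, Pi.add_apply, Pi.smul_apply, smul_eq_mul]
        have e3 : ∀ a, (u a + t * (Pi.single x 1 : X → ℝ) a) * (v a + t * S a x) =
            u a * v a + t * (u a * S a x) + (Pi.single x 1 : X → ℝ) a * (t * v a) +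
            (Pi.single x 1 : X → ℝ) a * (t * t * S a x) := fun a => by ring
        simp only [e3, Finset.sum_add_distrib]
        have e4 : ∀ w : X → ℝ, ∑ a, (Pi.single x 1 : X → ℝ) a * w a = w x := fun w => by
          simp [Pi.single_apply]
        rw [e4, e4, ← Finset.mul_sum]
        have e5 : ∑ a, u a * S a x = v x := by
          rw [hv]; simp only [Matrix.mulVec, dotProduct]
          exact Finset.sum_congr rfl fun a _ => by rw [hS x a]; ring
        rw [e5, hq, qf]; ring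
      rw [e1] at h1; exact h1
    have := discrim_le_zero key
    rw [discrim] at this; nlinarith
  have hq2 : q = ∑ x, v x * (EC k G c *ᵥ f) x := by
    rw [hq, qf]; exact Finset.sum_congr rfl fun a _ => by ring
  have h1 := h.smooth c f v
  rw [← hq2] at h1
  set A := ∑ x, k x * ‖G c x‖ ^ 2 * S x x + (G c c).im * S c c with hA
  have h2 : DD k G c v ≤ 2 * q * A := by
    have h3 : DD k G c v ≤ ∑ y, k y * ‖G c y‖ ^ 2 * (2 * (S c c * q) + 2 * (S y y * q)) := by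
      refine Finset.sum_le_sum fun y _ => ?_
      refine mul_le_mul_of_nonneg_left ?_ (mul_nonneg (h.hk y) (sq_nonneg _))
      nlinarith [sq_nonneg (v c + v y), hv2 c, hv2 y]
    refine h3.trans (le_of_eq ?_)
    rw [hA, ← h.row c, Finset.sum_mul, ← Finset.sum_add_distrib, Finset.mul_sum]
    exact Finset.sum_congr rfl fun y _ => by ring
  have hD := h.DD_nonneg c f
  have h4 : q ^ 2 ≤ 16 * (DD k G c f * (2 * q * A)) :=
    h1.trans (mul_le_mul_of_nonneg_left (mul_le_mul_of_nonneg_left h2 hD) (by norm_num))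
  rcases hq0.lt_or_eq with h5 | h5
  · have : q * q ≤ q * (32 * DD k G c f * A) := by nlinarith
    exact le_of_mul_le_mul_left this h5
  · rw [← h5]
    have hA0 : 0 ≤ A := by
      have hSd : ∀ x, 0 ≤ S x x := fun x => by
        have := hS0 (Pi.single x 1)
        simpa [qf, Pi.single_apply] using this
      exact add_nonneg (Finset.sum_nonneg fun x _ => mul_nonneg (mul_nonneg (h.hk x) (sq_nonneg _))
        (hSd x)) (mul_nonneg (h.im_nonneg c) (hSd c))
    positivity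

/-- NB, the smooth part, summed over the running sites -/
theorem smooth_sum (h : WK G k) (b : Finset X) (κ γ s : ℝ) (hκ : 0 < κ) (hb : ∀ c ∈ b, κ ≤ k c)
    (hg : 0 ≤ γ) (hγ : ∀ c ∈ b, (G c c).im ≤ γ) (hs : 0 ≤ s) (f : X → ℝ) (S : Matrix X X ℝ)
    (hS : ∀ a b, S a b = S b a) (hS0 : ∀ u, 0 ≤ qf S u) (hSd : ∀ x, S x x ≤ s) :
    ∑ c ∈ b, qf S (EC k G c *ᵥ f) ≤ 128 * s * γ / κ * qf (EE k G) f := by
  have h1 : ∀ c ∈ b, qf S (EC k G c *ᵥ f) ≤ 64 * s * γ * DD k G c f := fun c hc => by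
    refine (h.smoothS c f S hS hS0).trans ?_
    have hD := h.DD_nonneg c f
    have h2 : ∑ x, k x * ‖G c x‖ ^ 2 * S x x ≤ (G c c).im * s := by
      rw [← h.row c, Finset.sum_mul]
      exact Finset.sum_le_sum fun x _ => mul_le_mul_of_nonneg_left (hSd x)
        (mul_nonneg (h.hk x) (sq_nonneg _))
    have h3 : (G c c).im * S c c ≤ (G c c).im * s :=
      mul_le_mul_of_nonneg_left (hSd c) (h.im_nonneg c)
    have h4 : (G c c).im * s ≤ γ * s := mul_le_mul_of_nonneg_right (hγ c hc) hs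
    calc 32 * DD k G c f * (∑ x, k x * ‖G c x‖ ^ 2 * S x x + (G c c).im * S c c) ≤
        32 * DD k G c f * (2 * (γ * s)) :=
          mul_le_mul_of_nonneg_left (by linarith) (by positivity)
      _ = _ := by ring
  refine (Finset.sum_le_sum h1).trans ?_
  rw [← Finset.mul_sum]
  calc 64 * s * γ * ∑ c ∈ b, DD k G c f ≤ 64 * s * γ * (2 / κ * qf (EE k G) f) :=
        mul_le_mul_of_nonneg_left (h.sum_DD b κ hκ hb f) (by positivity)
    _ = _ := by ring

/-- NB, the white part, summed with weights -/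
theorem white_sum (h : WK G k) (b : Finset X) (κ γ ν : ℝ) (hκ : 0 < κ) (hb : ∀ c ∈ b, κ ≤ k c)
    (hγ : ∀ c ∈ b, (G c c).im ≤ γ) (r : X → ℝ) (hr : ∀ x, 0 ≤ r x)
    (hν : ∀ x, r x * k x * Real.sqrt (∑ c ∈ b, (‖G x c‖ ^ 2) ^ 2) * Real.sqrt (γ / κ) ≤ ν)
    (f : X → ℝ) :
    ∑ c ∈ b, ∑ x, r x * (EC k G c *ᵥ f) x ^ 2 ≤ 8 * ν * qf (EE k G) f := by
  rw [Finset.sum_comm]
  have h1 : ∀ x, ∑ c ∈ b, r x * (EC k G c *ᵥ f) x ^ 2 ≤ 4 * ν * (k x * DD k G x f) := fun x => by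
    rw [← Finset.mul_sum]
    have h2 := mul_le_mul_of_nonneg_left (h.white b κ γ hκ hb hγ f x) (hr x)
    refine h2.trans ?_
    have h3 := mul_le_mul_of_nonneg_right (hν x) (mul_nonneg (h.hk x) (h.DD_nonneg x f))
    calc r x * (4 * k x ^ 2 * Real.sqrt (∑ c ∈ b, (‖G x c‖ ^ 2) ^ 2) * Real.sqrt (γ / κ) *
          DD k G x f) = 4 * (r x * k x * Real.sqrt (∑ c ∈ b, (‖G x c‖ ^ 2) ^ 2) *
            Real.sqrt (γ / κ) * (k x * DD k G x f)) := by ring
      _ ≤ 4 * (ν * (k x * DD k G x f)) := by linarith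
      _ = _ := by ring
  refine (Finset.sum_le_sum fun x _ => h1 x).trans ?_
  rw [← Finset.mul_sum, ← h.two_qf]
  exact le_of_eq (by ring)

end WK

end Pool.Agent.AWD
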