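import Pool.Agent.AWD.Defs

/-!
# Block D1 of AND2B, part 1: consequences of the Ward identity
-/

set_option autoImplicit false

open scoped BigOperators ComplexConjugate Matrix

noncomputable section

namespace Pool.Agent.AWD

open Pool.Agent.LE.QF

variable {X : Type} [Fintype X] [DecidableEq X]

theorem KK_apply (G : Matrix X X ℂ) (a b : X) : KK G a b = ‖G a b‖ ^ 2 := rfl

theorem KK_nonneg (G : Matrix X X ℂ) (a b : X) : 0 ≤ KK G a b := by
  rw [KK_apply]; positivity

/-- Cauchy-Schwarz with weights -/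
theorem cs_w {ι : Type} (s : Finset ι) (k : ι → ℝ) (hk : ∀ i ∈ s, 0 ≤ k i) (u v : ι → ℂ) :
    ‖∑ i ∈ s, (k i : ℂ) * (u i * v i)‖ ^ 2 ≤
      (∑ i ∈ s, k i * ‖u i‖ ^ 2) * ∑ i ∈ s, k i * ‖v i‖ ^ 2 := by
  have h1 : ‖∑ i ∈ s, (k i : ℂ) * (u i * v i)‖ ≤
      ∑ i ∈ s, (Real.sqrt (k i) * ‖u i‖) * (Real.sqrt (k i) * ‖v i‖) := by
    refine (norm_sum_le _ _).trans (Finset.sum_le_sum fun i hi => ?_)
    rw [norm_mul, norm_mul, Complex.norm_real, Real.norm_of_nonneg (hk i hi)]
    have := Real.mul_self_sqrt (hk i hi)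
    calc k i * (‖u i‖ * ‖v i‖) = (Real.sqrt (k i) * Real.sqrt (k i)) * (‖u i‖ * ‖v i‖) := by
          rw [this]
      _ = Real.sqrt (k i) * ‖u i‖ * (Real.sqrt (k i) * ‖v i‖) := by ring
      _ ≤ _ := le_rfl
  have h2 := Finset.sum_mul_sq_le_sq_mul_sq s (fun i => Real.sqrt (k i) * ‖u i‖)
    (fun i => Real.sqrt (k i) * ‖v i‖)
  have h3 : ∀ (w : ι → ℂ), ∑ i ∈ s, (Real.sqrt (k i) * ‖w i‖) ^ 2 = ∑ i ∈ s, k i * ‖w i‖ ^ 2 :=
    fun w => Finset.sum_congr rfl fun i hi => by rw [mul_pow, Real.sq_sqrt (hk i hi)]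
  rw [h3, h3] at h2
  refine le_trans ?_ h2
  exact pow_le_pow_left₀ (norm_nonneg _) h1 2

/-- the same with real functions -/
theorem cs_r {ι : Type} (s : Finset ι) (k : ι → ℝ) (hk : ∀ i ∈ s, 0 ≤ k i) (u v : ι → ℝ) :
    (∑ i ∈ s, k i * (u i * v i)) ^ 2 ≤ (∑ i ∈ s, k i * u i ^ 2) * ∑ i ∈ s, k i * v i ^ 2 := by
  have h2 := Finset.sum_mul_sq_le_sq_mul_sq s (fun i => Real.sqrt (k i) * u i)
    (fun i => Real.sqrt (k i) * v i)
  have h3 : ∀ (w : ι → ℝ), ∑ i ∈ s, (Real.sqrt (k i) * w i) ^ 2 = ∑ i ∈ s, k i * w i ^ 2 :=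
    fun w => Finset.sum_congr rfl fun i hi => by rw [mul_pow, Real.sq_sqrt (hk i hi)]
  rw [h3, h3] at h2
  have h4 : ∑ i ∈ s, k i * (u i * v i) =
      ∑ i ∈ s, Real.sqrt (k i) * u i * (Real.sqrt (k i) * v i) :=
    Finset.sum_congr rfl fun i hi => by
      have := Real.mul_self_sqrt (hk i hi)
      calc k i * (u i * v i) = (Real.sqrt (k i) * Real.sqrt (k i)) * (u i * v i) := by rw [this]
        _ = _ := by ring
  rw [h4]; exact h2

theorem conj_dsum (F : X → X → ℂ) :
    conj (∑ a, ∑ b, F a b) = ∑ a, ∑ b, conj (F b a) := by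
  simp only [map_sum]; rw [Finset.sum_comm]

namespace WK

variable {G : Matrix X X ℂ} {k : X → ℝ}

/-- the row sum -/
theorem row (h : WK G k) (x : X) : ∑ y, k y * ‖G x y‖ ^ 2 = (G x x).im := by
  have h1 := h.hw x x
  have h2 : ∀ c, (k c : ℂ) * (conj (G x c) * G c x) = ((k c * ‖G x c‖ ^ 2 : ℝ) : ℂ) := fun c => by
    rw [h.hs c x, ← Complex.normSq_eq_conj_mul_self, Complex.normSq_eq_norm_sq]; push_cast; ring
  simp only [h2] at h1
  exact_mod_cast h1

theorem im_nonneg (h : WK G k) (x : X) : 0 ≤ (G x x).im := by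
  rw [← h.row]; exact Finset.sum_nonneg fun y _ => mul_nonneg (h.hk y) (sq_nonneg _)

theorem row' (h : WK G k) (x : X) : ∑ y, k y * ‖G y x‖ ^ 2 = (G x x).im := by
  rw [← h.row]; exact Finset.sum_congr rfl fun y _ => by rw [h.hs]

/-- one entry -/
theorem ent (h : WK G k) (x y : X) : k y * ‖G x y‖ ^ 2 ≤ (G x x).im := by
  rw [← h.row x]
  exact Finset.single_le_sum (f := fun y => k y * ‖G x y‖ ^ 2)
    (fun y _ => mul_nonneg (h.hk y) (sq_nonneg _)) (Finset.mem_univ y)

/-- the diagonal -/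
theorem diag (h : WK G k) (x : X) : k x * (G x x).im ≤ 1 ∧ k x * ‖G x x‖ ≤ 1 := by
  have h1 := h.ent x x
  have h2 : (G x x).im ≤ ‖G x x‖ := (le_abs_self _).trans (Complex.abs_im_le_norm _)
  have h4 : k x * ‖G x x‖ ≤ 1 := by
    by_contra hc
    have : 0 < ‖G x x‖ := by
      rcases (norm_nonneg (G x x)).lt_or_eq with h5 | h5
      · exact h5
      · rw [← h5, mul_zero] at hc; exact absurd zero_le_one hc
    nlinarith [not_le.mp hc]
  exact ⟨(mul_le_mul_of_nonneg_left h2 (h.hk x)).trans h4, h4⟩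

/-- two sites -/
theorem ent2 (h : WK G k) (x y : X) : k x * k y * ‖G x y‖ ^ 2 ≤ 1 := by
  have h1 := mul_le_mul_of_nonneg_left (h.ent x y) (h.hk x)
  have h2 := (h.diag x).1
  calc k x * k y * ‖G x y‖ ^ 2 = k x * (k y * ‖G x y‖ ^ 2) := by ring
    _ ≤ k x * (G x x).im := h1
    _ ≤ 1 := h2

/-- the imaginary part -/
theorem im_sq (h : WK G k) (x y : X) : (G x y).im ^ 2 ≤ (G x x).im * (G y y).im := by
  have h1 := cs_w Finset.univ k (fun i _ => h.hk i) (fun c => conj (G x c)) (fun c => G c y)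
  rw [h.hw x y, Complex.norm_real, Real.norm_eq_abs, sq_abs] at h1
  simp only [RCLike.norm_conj] at h1
  rwa [h.row, h.row'] at h1

/-- the sesquilinear form of `G^* k G` -/
theorem form (h : WK G k) (u v : X → ℂ) :
    ∑ x, (k x : ℂ) * (conj ((G *ᵥ u) x) * (G *ᵥ v) x) =
      ∑ a, ∑ b, conj (u a) * ((G a b).im : ℂ) * v b := by
  have h1 : ∀ x, (k x : ℂ) * (conj ((G *ᵥ u) x) * (G *ᵥ v) x) =
      ∑ a, ∑ b, conj (u a) * ((k x : ℂ) * (conj (G a x) * G x b)) * v b := fun x => by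
    have e1 : conj ((G *ᵥ u) x) = ∑ a, conj (G a x) * conj (u a) := by
      simp only [Matrix.mulVec, dotProduct, map_sum, map_mul]
      exact Finset.sum_congr rfl fun a _ => by rw [h.hs]
    have e2 : (G *ᵥ v) x = ∑ b, G x b * v b := rfl
    rw [e1, e2, Finset.sum_mul_sum, Finset.mul_sum]
    refine Finset.sum_congr rfl fun a _ => ?_
    rw [Finset.mul_sum]
    exact Finset.sum_congr rfl fun b _ => by ring
  simp only [h1]
  rw [Finset.sum_comm]
  refine Finset.sum_congr rfl fun a _ => ?_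
  rw [Finset.sum_comm]
  refine Finset.sum_congr rfl fun b _ => ?_
  rw [← h.hw a b, Finset.mul_sum, Finset.sum_mul]

/-- `G^* k G ≤ 1 / k` -/
theorem nrm (h : WK G k) (v : X → ℂ) :
    ∑ x, k x * ‖∑ y, G x y * ((k y : ℂ) * v y)‖ ^ 2 ≤ ∑ y, k y * ‖v y‖ ^ 2 := by
  set u : X → ℂ := fun y => (k y : ℂ) * v y with hu
  have e0 : ∀ x, ∑ y, G x y * ((k y : ℂ) * v y) = (G *ᵥ u) x := fun x => rfl
  simp only [e0]
  set S := ∑ x, k x * ‖(G *ᵥ u) x‖ ^ 2 with hS
  have hS0 : 0 ≤ S := Finset.sum_nonneg fun x _ => mul_nonneg (h.hk x) (sq_nonneg _)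
  have e1 : (S : ℂ) = ∑ a, ∑ b, conj (u a) * ((G a b).im : ℂ) * u b := by
    rw [← h.form, hS]; push_cast
    refine Finset.sum_congr rfl fun x _ => ?_
    rw [← Complex.normSq_eq_conj_mul_self, Complex.normSq_eq_norm_sq]; push_cast; ring
  -- `∑ conj u G u` has the imaginary part `S`
  have e2 : (∑ a, (k a : ℂ) * (conj (v a) * (G *ᵥ u) a)).im = S := by
    have e3 : ∑ a, (k a : ℂ) * (conj (v a) * (G *ᵥ u) a) = ∑ a, ∑ b, conj (u a) * G a b * u b := by
      refine Finset.sum_congr rfl fun a _ => ?_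
      have : (G *ᵥ u) a = ∑ b, G a b * u b := rfl
      rw [this, Finset.mul_sum, Finset.mul_sum]
      refine Finset.sum_congr rfl fun b _ => ?_
      simp only [hu, map_mul, Complex.conj_ofReal]; ring
    have e4 : conj (∑ a, ∑ b, conj (u a) * G a b * u b) =
        ∑ a, ∑ b, conj (u a) * conj (G a b) * u b := by
      rw [conj_dsum]
      refine Finset.sum_congr rfl fun a _ => Finset.sum_congr rfl fun b _ => ?_
      rw [map_mul, map_mul, Complex.conj_conj, h.hs a b]; ring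
    have e5 : (S : ℂ) * (2 * Complex.I) = ∑ a, ∑ b, conj (u a) * G a b * u b -
        conj (∑ a, ∑ b, conj (u a) * G a b * u b) := by
      rw [e4, e1, ← Finset.sum_sub_distrib, Finset.sum_mul]
      refine Finset.sum_congr rfl fun a _ => ?_
      rw [← Finset.sum_sub_distrib, Finset.sum_mul]
      refine Finset.sum_congr rfl fun b _ => ?_
      have : G a b - conj (G a b) = ((G a b).im : ℂ) * (2 * Complex.I) := by
        rw [Complex.sub_conj]; push_cast; ring
      linear_combination (-(conj (u a) * u b)) * this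
    rw [e3]
    rw [Complex.sub_conj] at e5
    rw [show (S : ℂ) * (2 * Complex.I) = ((2 * S : ℝ) : ℂ) * Complex.I by push_cast; ring] at e5
    have e6 := congrArg Complex.im e5
    rw [Complex.mul_I_im, Complex.mul_I_im, Complex.ofReal_re, Complex.ofReal_re] at e6
    linarith
  have e7 := cs_w Finset.univ k (fun i _ => h.hk i) (fun a => conj (v a)) (fun a => (G *ᵥ u) a)
  simp only [RCLike.norm_conj] at e7
  rw [← hS] at e7
  have e8 : S ^ 2 ≤ ‖∑ a, (k a : ℂ) * (conj (v a) * (G *ᵥ u) a)‖ ^ 2 := by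
    rw [← e2]
    exact (sq_abs _).symm.le.trans
      (pow_le_pow_left₀ (abs_nonneg _) (Complex.abs_im_le_norm _) 2)
  have e9 : S * S ≤ (∑ i, k i * ‖v i‖ ^ 2) * S := by
    calc S * S = S ^ 2 := by ring
      _ ≤ _ := e8.trans e7
  rcases hS0.lt_or_eq with h1 | h1
  · exact le_of_mul_le_mul_right e9 h1
  · rw [← h1]; exact Finset.sum_nonneg fun x _ => mul_nonneg (h.hk x) (sq_nonneg _)

/-- the same with `conj G` -/
theorem nrm' (h : WK G k) (v : X → ℂ) :
    ∑ x, k x * ‖∑ y, conj (G x y) * ((k y : ℂ) * v y)‖ ^ 2 ≤ ∑ y, k y * ‖v y‖ ^ 2 := by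
  have h1 := h.nrm fun y => conj (v y)
  simp only [RCLike.norm_conj] at h1
  refine le_trans (le_of_eq (Finset.sum_congr rfl fun x _ => ?_)) h1
  have e : ∑ y, conj (G x y) * ((k y : ℂ) * v y) =
      conj (∑ y, G x y * ((k y : ℂ) * conj (v y))) := by
    rw [map_sum]; exact Finset.sum_congr rfl fun y _ => by simp
  rw [e, RCLike.norm_conj]

end WK

/-- existence: the resolvent of a real symmetric matrix with the absorption `k > 0` -/
theorem wk_inv (H : Matrix X X ℝ) (hH : ∀ a b, H a b = H b a) (k : X → ℝ) (hk : ∀ a, 0 < k a) :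
    IsUnit (H.map (fun r : ℝ => (r : ℂ)) -
      Matrix.diagonal fun a => Complex.I * (k a : ℂ)).det ∧
    WK (H.map (fun r : ℝ => (r : ℂ)) - Matrix.diagonal fun a => Complex.I * (k a : ℂ))⁻¹ k := by
  set A : Matrix X X ℂ := H.map (fun r : ℝ => (r : ℂ)) -
      Matrix.diagonal fun a => Complex.I * (k a : ℂ) with hA
  have hAs : ∀ a b, A a b = A b a := fun a b => by
    simp only [hA, Matrix.sub_apply, Matrix.map_apply, Matrix.diagonal_apply, hH a b]
    by_cases hab : a = b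
    · subst hab; rfl
    · rw [if_neg hab, if_neg (Ne.symm hab)]
  have hdet : IsUnit A.det := by
    by_contra hc
    have h0 : A.det = 0 := by
      by_contra h1; exact hc (Ne.isUnit h1)
    obtain ⟨u, hu0, hu⟩ := Matrix.exists_mulVec_eq_zero_iff.mpr h0
    apply hu0
    have e1 : (∑ a, conj (u a) * (A *ᵥ u) a) = 0 := by
      rw [hu]; simp
    have e2 : ∀ a, (A *ᵥ u) a = ∑ b, (H a b : ℂ) * u b - Complex.I * (k a : ℂ) * u a := fun a => by
      rw [hA, Matrix.sub_mulVec]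
      simp [Matrix.mulVec, dotProduct, Matrix.diagonal_apply]
    have e3 : conj (∑ a, ∑ b, conj (u a) * ((H a b : ℂ) * u b)) =
        ∑ a, ∑ b, conj (u a) * ((H a b : ℂ) * u b) := by
      rw [conj_dsum]
      refine Finset.sum_congr rfl fun a _ => Finset.sum_congr rfl fun b _ => ?_
      rw [map_mul, map_mul, Complex.conj_conj, Complex.conj_ofReal, hH a b]; ring
    have e4 : (∑ a, ∑ b, conj (u a) * ((H a b : ℂ) * u b)).im = 0 := by
      have := congrArg Complex.im e3; rw [Complex.conj_im] at this; linarith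
    have e5 : (∑ a, conj (u a) * (A *ᵥ u) a).im = -∑ a, k a * ‖u a‖ ^ 2 := by
      have : (∑ a, conj (u a) * (A *ᵥ u) a) = (∑ a, ∑ b, conj (u a) * ((H a b : ℂ) * u b)) -
          Complex.I * ((∑ a, k a * ‖u a‖ ^ 2 : ℝ) : ℂ) := by
        push_cast
        rw [Finset.mul_sum, ← Finset.sum_sub_distrib]
        refine Finset.sum_congr rfl fun a _ => ?_
        rw [e2, mul_sub, Finset.mul_sum]
        have : conj (u a) * u a = ((‖u a‖ ^ 2 : ℝ) : ℂ) := by
          rw [← Complex.normSq_eq_conj_mul_self, Complex.normSq_eq_norm_sq]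
        push_cast at this
        rw [← this]; ring
      rw [this, Complex.sub_im, e4, zero_sub, Complex.I_mul_im, Complex.ofReal_re]
    rw [e1] at e5
    have e6 : ∑ a, k a * ‖u a‖ ^ 2 = 0 := by simpa using e5.symm
    rw [Finset.sum_eq_zero_iff_of_nonneg fun a _ => mul_nonneg (hk a).le (sq_nonneg _)] at e6
    ext a
    have := e6 a (Finset.mem_univ a)
    rcases mul_eq_zero.mp this with h1 | h1
    · exact absurd h1 (hk a).ne'
    · simpa using h1
  refine ⟨hdet, fun a => (hk a).le, ?_, ?_⟩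
  · intro a b
    have hT : Aᵀ = A := by ext i j; exact hAs j i
    have : (A⁻¹)ᵀ = A⁻¹ := by rw [Matrix.transpose_nonsing_inv, hT]
    exact (congrFun (congrFun this a) b).symm
  · have hT : Aᵀ = A := by ext i j; exact hAs j i
    have hGT : (A⁻¹)ᵀ = A⁻¹ := by rw [Matrix.transpose_nonsing_inv, hT]
    have hsub : A - Aᴴ = -(2 * Complex.I) • Matrix.diagonal fun a => (k a : ℂ) := by
      ext a b
      rw [Matrix.sub_apply, Matrix.conjTranspose_apply, hAs b a]
      simp only [hA, Matrix.sub_apply, Matrix.map_apply, Matrix.diagonal_apply, Matrix.smul_apply,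
        smul_eq_mul]
      by_cases hab : a = b
      · subst hab; simp; ring
      · simp [hab]
    have h1 : (A⁻¹)ᴴ - A⁻¹ = (A⁻¹)ᴴ * (A - Aᴴ) * A⁻¹ := by
      have hu' : IsUnit Aᴴ.det := by
        rw [Matrix.det_conjTranspose]; exact hdet.star
      rw [Matrix.mul_sub, Matrix.sub_mul, Matrix.mul_assoc, Matrix.mul_nonsing_inv _ hdet,
        Matrix.mul_one, Matrix.conjTranspose_nonsing_inv, Matrix.nonsing_inv_mul _ hu',
        Matrix.one_mul]
    intro a b
    have h2 := congrFun (congrFun h1 a) b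
    rw [hsub] at h2
    have h3 : ((A⁻¹)ᴴ * (-(2 * Complex.I) • Matrix.diagonal fun a => (k a : ℂ)) * A⁻¹) a b =
        -(2 * Complex.I) * ∑ c, (k c : ℂ) * (conj (A⁻¹ a c) * A⁻¹ c b) := by
      rw [Matrix.mul_smul, Matrix.smul_mul, Matrix.smul_apply, smul_eq_mul, Matrix.mul_apply]
      congr 1
      refine Finset.sum_congr rfl fun c _ => ?_
      rw [Matrix.mul_diagonal, Matrix.conjTranspose_apply]
      have : A⁻¹ c a = A⁻¹ a c := congrFun (congrFun hGT a) c
      rw [this]; simp only [RCLike.star_def]; ring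
    rw [h3, Matrix.sub_apply, Matrix.conjTranspose_apply] at h2
    have h4 : A⁻¹ b a = A⁻¹ a b := congrFun (congrFun hGT a) b
    rw [h4] at h2
    have h5 : star (A⁻¹ a b) - A⁻¹ a b = -(2 * Complex.I) * ((A⁻¹ a b).im : ℂ) := by
      have := Complex.sub_conj (A⁻¹ a b)
      push_cast at this
      simp only [RCLike.star_def]
      linear_combination -this
    rw [h5] at h2
    have h6 : (-(2 * Complex.I)) ≠ (0 : ℂ) := by simp
    exact (mul_left_cancel₀ h6 h2).symm

end Pool.Agent.AWD
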